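import Mathlib

/-!
Descent polynomials over all permutations, weighted by a character of the sign: a first-letter
recursion and its closed form.
-/

set_option autoImplicit false

namespace Pool.Agent.H346Z.Euler

open Finset Equiv

/-- number of descents -/
def des {n : ℕ} (π : Perm (Fin (n+1))) : ℕ :=
  ∑ j : Fin n, if π j.succ < π j.castSucc then 1 else 0

theorem des_eq {n : ℕ} (π : Perm (Fin (n+1))) :
    ((Finset.univ : Finset (Fin (n+1) × Fin (n+1))).filter
      (fun p => p.2.val = p.1.val + 1 ∧ π p.2 < π p.1)).card = des π := by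
  unfold des
  rw [← Finset.card_filter]
  symm
  apply Finset.card_bij (fun j _ => (j.castSucc, j.succ))
  · intro j hj
    simp only [mem_filter, mem_univ, true_and] at hj ⊢
    exact ⟨by simp, hj⟩
  · intro a _ b _ h
    exact Fin.castSucc_injective _ (congrArg Prod.fst h)
  · rintro ⟨a, b⟩ h
    simp only [mem_filter, mem_univ, true_and] at h
    have hb := b.isLt
    refine ⟨⟨a.val, by omega⟩, ?_, ?_⟩
    · simp only [mem_filter, mem_univ, true_and]
      have e1 : (Fin.succ (⟨a.val, by omega⟩ : Fin n)) = b := Fin.ext (by simp [h.1])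
      have e2 : (Fin.castSucc (⟨a.val, by omega⟩ : Fin n)) = a := Fin.ext (by simp)
      rw [e1, e2]; exact h.2
    · refine Prod.ext (Fin.ext (by simp)) (Fin.ext (by simp [h.1]))

/-- the permutation with first letter `i` and the remaining letters in the order `σ` -/
def ins {n : ℕ} (i : Fin (n+1)) (σ : Perm (Fin n)) : Perm (Fin (n+1)) :=
  i.cycleRange.symm * Perm.decomposeFin.symm (0, σ)

theorem ins_zero {n : ℕ} (i : Fin (n+1)) (σ : Perm (Fin n)) : ins i σ 0 = i := by
  simp [ins]

theorem ins_succ {n : ℕ} (i : Fin (n+1)) (σ : Perm (Fin n)) (j : Fin n) :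
    ins i σ j.succ = i.succAbove (σ j) := by
  simp [ins]

theorem sign_ins {n : ℕ} (i : Fin (n+1)) (σ : Perm (Fin n)) :
    Perm.sign (ins i σ) = (-1) ^ (i : ℕ) * Perm.sign σ := by
  simp [ins, Fin.sign_cycleRange]

theorem ins_bij (n : ℕ) :
    Function.Bijective (fun p : Fin (n+1) × Perm (Fin n) => ins p.1 p.2) := by
  rw [Fintype.bijective_iff_injective_and_card]
  refine ⟨?_, by simp [Fintype.card_perm, Nat.factorial_succ]⟩
  rintro ⟨i, σ⟩ ⟨i', σ'⟩ h
  simp only at h
  have h0 : i = i' := by rw [← ins_zero i σ, h, ins_zero]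
  subst h0
  refine Prod.ext rfl (Equiv.ext fun j => ?_)
  have := congrArg (fun π : Perm (Fin (n+1)) => π j.succ) h
  simp only [ins_succ] at this
  exact Fin.succAbove_right_injective this

theorem des_ins {n : ℕ} (i : Fin (n+2)) (σ : Perm (Fin (n+1))) :
    des (ins i σ) = (if (σ 0).val < i.val then 1 else 0) + des σ := by
  unfold des
  rw [Fin.sum_univ_succ]
  congr 1
  · have : (ins i σ (Fin.succ 0) < ins i σ (Fin.castSucc 0)) ↔ (σ 0).val < i.val := by
      rw [ins_succ, Fin.castSucc_zero, ins_zero, Fin.succAbove_lt_iff_castSucc_lt]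
      exact Iff.rfl
    simp only [this]
  · refine Finset.sum_congr rfl fun j _ => ?_
    have : (ins i σ j.succ.succ < ins i σ j.succ.castSucc) ↔ σ j.succ < σ j.castSucc := by
      rw [← Fin.succ_castSucc, ins_succ, ins_succ, Fin.succAbove_lt_succAbove_iff]
    simp only [this]

/-- weighted descent sum with an extra letter `i` in front -/
noncomputable def G (χ : ℤˣ →* ℂ) (z : ℂ) (n i : ℕ) : ℂ :=
  ∑ σ : Perm (Fin (n+1)), χ (Perm.sign σ) * z ^ des σ * (if (σ 0).val < i then z else 1)

theorem G_succ (χ : ℤˣ →* ℂ) (z : ℂ) (n i : ℕ) :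
    G χ z (n+1) i = ∑ j ∈ range (n+2), χ (-1) ^ j * G χ z n j * (if j < i then z else 1) := by
  unfold G
  rw [← (ins_bij (n+1)).sum_comp, Fintype.sum_prod_type, ← Fin.sum_univ_eq_sum_range
    (fun j => χ (-1) ^ j * (∑ σ : Perm (Fin (n+1)), χ (Perm.sign σ) * z ^ des σ *
      (if (σ 0).val < j then z else 1)) * (if j < i then z else 1))]
  refine Finset.sum_congr rfl fun j _ => ?_
  rw [Finset.mul_sum, Finset.sum_mul]
  refine Finset.sum_congr rfl fun σ _ => ?_
  simp only [sign_ins, des_ins, ins_zero, map_mul, map_pow, pow_add]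
  split_ifs <;> ring

theorem G_closed (χ : ℤˣ →* ℂ) (z : ℂ) (Φ : ℕ → ℕ → ℂ) (h0 : (1 - z) * Φ 0 0 = 1)
    (h1 : ∀ i l, Φ (i+1) l - Φ i (l+1) = - (χ (-1) ^ i * Φ i l))
    (h2 : ∀ r, Φ (r+1) 0 = z * Φ 0 (r+1)) :
    ∀ n i, i ≤ n + 1 → G χ z n i = (1 - z) ^ (n+2) * Φ i (n + 1 - i) := by
  intro n
  induction n with
  | zero =>
    intro i hi
    have a1 := h1 0 0
    have a2 := h2 0
    have e : G χ z 0 i = if 0 < i then z else 1 := by
      unfold G
      rw [Fintype.sum_eq_single (1 : Perm (Fin (0+1))) (fun σ h => absurd (Equiv.ext fun j =>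
        Fin.ext (by have := (σ j).isLt; have := j.isLt; simp only [Perm.coe_one, id_eq]; omega)) h)]
      simp [des]
    have b : (1 - z) * Φ 0 1 = Φ 0 0 := by
      simp only [pow_zero, one_mul, zero_add] at a1 a2
      linear_combination a2 - a1
    rw [e]
    interval_cases i
    · simp only [lt_irrefl, if_false]
      simp only [pow_zero, one_mul, zero_add] at a1 a2 ⊢
      linear_combination (-1) * h0 - (1 - z) * b
    · simp only [pow_zero, one_mul, zero_add] at a1 a2 ⊢
      simp only [Nat.lt_one_iff, if_true, Nat.sub_self]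
      linear_combination (-z) * h0 - z * (1 - z) * b - (1 - z) ^ 2 * a2
  | succ n ih =>
    intro i hi
    rw [G_succ]
    have tel : ∀ k, k ≤ n + 2 → ∑ j ∈ range k, χ (-1) ^ j * Φ j (n + 1 - j)
        = Φ 0 (n+2) - Φ k (n + 2 - k) := by
      intro k
      induction k with
      | zero => intro _; simp
      | succ k ihk =>
        intro hk
        rw [Finset.sum_range_succ, ihk (by omega)]
        have := h1 k (n + 1 - k)
        have e1 : n + 2 - k = n + 1 - k + 1 := by omega
        have e2 : n + 2 - (k + 1) = n + 1 - k := by omega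
        rw [e1, e2]
        linear_combination this
    have e : ∑ j ∈ range (n+2), χ (-1) ^ j * G χ z n j * (if j < i then z else 1)
        = (1 - z) ^ (n+2) * (∑ j ∈ range (n+2), χ (-1) ^ j * Φ j (n + 1 - j)
          + (z - 1) * ∑ j ∈ range i, χ (-1) ^ j * Φ j (n + 1 - j)) := by
      have e3 : ∑ j ∈ range i, χ (-1) ^ j * Φ j (n + 1 - j)
          = ∑ j ∈ range (n+2), if j < i then χ (-1) ^ j * Φ j (n + 1 - j) else 0 := by
        rw [← Finset.sum_filter]
        congr 1
        ext j; simp only [mem_range, mem_filter]; omega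
      rw [e3, Finset.mul_sum, ← Finset.sum_add_distrib, Finset.mul_sum]
      refine Finset.sum_congr rfl fun j hj => ?_
      rw [ih j (by simp only [mem_range] at hj; omega)]
      split_ifs <;> ring
    rw [e, tel (n+2) le_rfl, tel i hi, Nat.sub_self, h2 (n+1)]
    have e4 : n + 1 + 1 - i = n + 2 - i := by omega
    rw [e4]
    ring

end Pool.Agent.H346Z.Euler
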