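import Mathlib

/-!
Derivative polynomials of the hyperbolic tangent: `P 0 = X`, `P (m+1) = (1 - X^2) (P m)'`.
We show that `P (m+j) ± 2^m P j` has a real-rooted derivative whenever `m ≥ 1`, `j + 1 ≥ m`.
-/

set_option autoImplicit false
set_option linter.unusedSimpArgs false

namespace Pool.Agent.H346Z.Euler

open Polynomial

noncomputable def D (p : ℝ[X]) : ℝ[X] := (1 - X ^ 2) * derivative p

noncomputable def P : ℕ → ℝ[X]
  | 0 => X
  | m+1 => D (P m)

/-- the derivative is a nonzero polynomial with real roots only -/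
def Good (p : ℝ[X]) : Prop := (derivative p).Splits ∧ derivative p ≠ 0

theorem q_eq : (1 - X ^ 2 : ℝ[X]) = - ((X - C 1) * (X + C 1)) := by
  simp only [map_one]; ring

theorem q_splits : (1 - X ^ 2 : ℝ[X]).Splits := by
  rw [q_eq]; exact ((Splits.X_sub_C _).mul (Splits.X_add_C _)).neg

theorem q_deg : (1 - X ^ 2 : ℝ[X]).natDegree = 2 := by
  rw [q_eq, natDegree_neg, natDegree_mul (X_sub_C_ne_zero _) (X_add_C_ne_zero _),
    natDegree_X_sub_C, natDegree_X_add_C]

theorem q_ne : (1 - X ^ 2 : ℝ[X]) ≠ 0 := by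
  intro h; have := q_deg; rw [h] at this; simp at this

theorem Good.D_splits {p : ℝ[X]} (h : Good p) : (D p).Splits ∧ D p ≠ 0 :=
  ⟨q_splits.mul h.1, mul_ne_zero q_ne h.2⟩

theorem Good.D {p : ℝ[X]} (h : Good p) : Good (D p) := by
  have h1 := h.D_splits
  have h2 : (Euler.D p).natDegree ≠ 0 := by
    unfold Euler.D
    rw [natDegree_mul q_ne h.2, q_deg]; omega
  refine ⟨?_, derivative_ne_zero.2 h2⟩
  rw [splits_iff_card_roots]
  have a := card_roots_le_derivative (Euler.D p)
  have b := splits_iff_card_roots.1 h1.1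
  have c := natDegree_derivative (Euler.D p)
  have d := card_roots' (derivative (Euler.D p))
  omega

theorem P_deg (m : ℕ) : (P m).natDegree ≤ m + 1 := by
  induction m with
  | zero => simp [P]
  | succ m ih =>
    show (D (P m)).natDegree ≤ _
    unfold D
    refine natDegree_mul_le.trans ?_
    have := natDegree_derivative (P m)
    rw [q_deg]; omega

theorem alt (R : ℝ[X]) (d : ℕ) (hd : R.natDegree ≤ d) (h0 : R ≠ 0) (w : ℕ → ℝ)
    (hw : ∀ i, i < d → w i < w (i+1))
    (hs : ∀ i, i < d → R.eval (w i) * R.eval (w (i+1)) ≤ 0)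
    (hn : ∀ i, 0 < i → i < d → R.eval (w i) ≠ 0) : R.Splits := by
  have ex : ∀ i, ∃ r, i < d → (w i ≤ r ∧ r ≤ w (i+1) ∧ R.eval r = 0) := by
    intro i
    by_cases hi : i < d
    · have hc : ContinuousOn (fun x => R.eval x) (Set.uIcc (w i) (w (i+1))) :=
        R.continuous.continuousOn
      have hm : (0 : ℝ) ∈ Set.uIcc (R.eval (w i)) (R.eval (w (i+1))) := by
        have := hs i hi
        rcases le_total (R.eval (w i)) 0 with a | a <;>
          rcases le_total (R.eval (w (i+1))) 0 with b | b
        · rcases mul_eq_zero.1 (le_antisymm this (mul_nonneg_of_nonpos_of_nonpos a b)) with e | e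
          · rw [e]; exact Set.left_mem_uIcc
          · rw [e]; exact Set.right_mem_uIcc
        · exact Set.mem_uIcc.2 (Or.inl ⟨a, b⟩)
        · exact Set.mem_uIcc.2 (Or.inr ⟨b, a⟩)
        · rcases mul_eq_zero.1 (le_antisymm this (mul_nonneg a b)) with e | e
          · rw [e]; exact Set.left_mem_uIcc
          · rw [e]; exact Set.right_mem_uIcc
      obtain ⟨r, hr, e⟩ := intermediate_value_uIcc hc hm
      rw [Set.uIcc_of_le (hw i hi).le] at hr
      exact ⟨r, fun _ => ⟨hr.1, hr.2, e⟩⟩
    · exact ⟨0, fun h => absurd h hi⟩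
  choose r hr using ex
  have mono : ∀ i, i + 1 < d → r i < r (i+1) := by
    intro i hi
    have a := hr i (by omega)
    have b := hr (i+1) hi
    refine lt_of_le_of_ne (a.2.1.trans b.1) fun e => hn (i+1) (by omega) hi ?_
    have : w (i+1) = r i := le_antisymm (e ▸ b.1) a.2.1
    rw [this]; exact a.2.2
  have sm : StrictMono (fun i : Fin d => r i) := by
    have key : ∀ k i, i + k + 1 < d → r i < r (i + k + 1) := by
      intro k
      induction k with
      | zero => intro i hi; exact mono i hi
      | succ k ih => intro i hi; exact (ih i (by omega)).trans (mono (i + k + 1) hi)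
    intro a b hab
    have hb := b.isLt
    have : (a : ℕ) < b := hab
    have e : (b : ℕ) = a + (b - a - 1) + 1 := by omega
    show r a < r b
    rw [e]; exact key _ _ (by omega)
  rw [splits_iff_card_roots]
  refine le_antisymm (card_roots' R) (hd.trans ?_)
  calc d = (Finset.univ.image (fun i : Fin d => r i)).card := by
        rw [Finset.card_image_of_injective _ sm.injective]; simp
    _ ≤ R.roots.toFinset.card := by
        apply Finset.card_le_card
        intro x hx
        obtain ⟨i, _, rfl⟩ := Finset.mem_image.1 hx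
        rw [Multiset.mem_toFinset, mem_roots h0]
        exact (hr i i.isLt).2.2
    _ ≤ _ := Multiset.toFinset_card_le _

theorem P_succ_eval (m : ℕ) (x : ℝ) :
    (P (m+1)).eval x = (1 - x ^ 2) * (derivative (P m)).eval x := by
  show (D (P m)).eval x = _
  simp [D]

theorem P_comp (m : ℕ) : (P m).comp (-X) = C ((-1) ^ (m+1)) * P m := by
  induction m with
  | zero => simp [P]
  | succ m ih =>
    have h := congrArg derivative ih
    rw [derivative_comp, derivative_C_mul] at h
    show (D (P m)).comp (-X) = C ((-1) ^ (m+1+1)) * D (P m)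
    unfold D
    simp only [mul_comp, sub_comp, one_comp, pow_comp, X_comp, pow_succ _ (m+1), map_mul, map_neg,
      map_one]
    simp only [derivative_neg, derivative_X] at h
    linear_combination (-(1 - X ^ 2)) * h

theorem dP_neg (m : ℕ) (x : ℝ) :
    (derivative (P m)).eval (-x) = (-1) ^ m * (derivative (P m)).eval x := by
  have h := congrArg (fun p => (derivative p).eval x) (P_comp m)
  simp only [derivative_comp, derivative_C_mul, derivative_neg, derivative_X, eval_mul, eval_comp,
    eval_neg, eval_one, eval_X, eval_C, pow_succ] at h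
  linear_combination (-1) * h

theorem dP_left (m : ℕ) : (derivative (P m)).eval (-1) = 2 ^ m := by
  induction m with
  | zero => simp [P]
  | succ m ih =>
    show (derivative (D (P m))).eval (-1) = _
    unfold D
    simp only [derivative_mul, derivative_sub, derivative_one, derivative_X_pow, eval_add, eval_mul,
      eval_sub, eval_C, eval_pow, eval_X, eval_zero, eval_one, ih]
    norm_num
    ring

/-! ### the value at the centre -/

noncomputable def a (m k : ℕ) : ℝ := (-1) ^ ((m + k) / 2) * (P m).coeff k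

theorem coeff_succ (m k : ℕ) : (P (m+1)).coeff k =
    (k + 1) * (P m).coeff (k+1) - ((k - 1 : ℕ) : ℝ) * (P m).coeff (k - 1) := by
  show (D (P m)).coeff k = _
  unfold D
  rw [sub_mul, one_mul, coeff_sub, coeff_X_pow_mul', coeff_derivative]
  rcases k with _ | _ | k
  · simp
  · simp; ring
  · rw [if_pos (by omega), coeff_derivative]
    simp; ring

theorem a_succ (m k : ℕ) : a (m+1) k = (k + 1) * a m (k+1) + ((k - 1 : ℕ) : ℝ) * a m (k - 1) := by
  unfold a
  rw [coeff_succ]
  rcases k with _ | k
  · simp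
  · have e1 : (m + 1 + (k + 1)) / 2 = (m + k) / 2 + 1 := by omega
    have e2 : (m + (k + 1 + 1)) / 2 = (m + k) / 2 + 1 := by omega
    rw [e1, e2, Nat.add_sub_cancel, pow_succ]
    ring

theorem a_nonneg (m : ℕ) : ∀ k, 0 ≤ a m k := by
  induction m with
  | zero =>
    intro k
    unfold a
    by_cases h : k = 1
    · subst h; simp [P]
    · simp [P, coeff_X, Ne.symm h]
  | succ m ih =>
    intro k
    rw [a_succ]
    have := ih (k+1)
    have := ih (k-1)
    positivity

theorem a_grow (m : ℕ) : 8 * a (m+2) 0 ≤ a (m+4) 0 := by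
  have e1 := a_succ (m+1) 0
  have e2 := a_succ (m+3) 0
  have e3 := a_succ (m+2) 1
  have e4 := a_succ (m+1) 2
  have e5 := a_succ m 3
  have e6 := a_succ m 1
  have p := a_nonneg m 4
  norm_num at e1 e2 e3 e4 e5 e6
  have : a (m+4) 0 = a (m+3) 1 := e2
  have : a (m+3) 1 = 2 * a (m+2) 2 := e3
  have : a (m+2) 0 = a (m+1) 1 := e1
  have : a (m+2) 2 = 3 * a (m+1) 3 + a (m+1) 1 := e4
  linarith

theorem P1 : P 1 = 1 - X ^ 2 := by simp [P, D]

theorem P2 : P 2 = -2 * X + 2 * X ^ 3 := by
  show D (P 1) = _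
  rw [P1]; unfold D
  simp only [derivative_add, derivative_sub, derivative_mul, derivative_neg, derivative_ofNat,
    derivative_X_pow, derivative_X, derivative_one, map_natCast]
  norm_num
  ring

theorem P3 : P 3 = -2 + 8 * X ^ 2 - 6 * X ^ 4 := by
  show D (P 2) = _
  rw [P2]; unfold D
  simp only [derivative_add, derivative_sub, derivative_mul, derivative_neg, derivative_ofNat,
    derivative_X_pow, derivative_X, derivative_one, map_natCast]
  norm_num
  ring

theorem P4 : P 4 = 16 * X - 40 * X ^ 3 + 24 * X ^ 5 := by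
  show D (P 3) = _
  rw [P3]; unfold D
  simp only [derivative_add, derivative_sub, derivative_mul, derivative_neg, derivative_ofNat,
    derivative_X_pow, derivative_X, derivative_one, map_natCast]
  norm_num
  ring

theorem P5 : P 5 = 16 - 136 * X ^ 2 + 240 * X ^ 4 - 120 * X ^ 6 := by
  show D (P 4) = _
  rw [P4]; unfold D
  simp only [derivative_add, derivative_sub, derivative_mul, derivative_neg, derivative_ofNat,
    derivative_X_pow, derivative_X, derivative_one, map_natCast]
  norm_num
  ring

theorem P6 : P 6 = -272 * X + 1232 * X ^ 3 - 1680 * X ^ 5 + 720 * X ^ 7 := by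
  show D (P 5) = _
  rw [P5]; unfold D
  simp only [derivative_add, derivative_sub, derivative_mul, derivative_neg, derivative_ofNat,
    derivative_X_pow, derivative_X, derivative_one, map_natCast]
  norm_num
  ring

theorem P7 : P 7 = -272 + 3968 * X ^ 2 - 12096 * X ^ 4 + 13440 * X ^ 6 - 5040 * X ^ 8 := by
  show D (P 6) = _
  rw [P6]; unfold D
  simp only [derivative_add, derivative_sub, derivative_mul, derivative_neg, derivative_ofNat,
    derivative_X_pow, derivative_X, derivative_one, map_natCast]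
  norm_num
  ring

theorem centre (r : ℕ) : (2 : ℝ) ^ (2 * (r + 3) + 2) ≤ (-1) ^ (r + 3) * (P (2 * (r + 3) + 1)).eval 0 := by
  have key : ∀ r : ℕ, (2 : ℝ) ^ (2 * (r + 3) + 2) ≤ a (2 * r + 5 + 2) 0 := by
    intro r
    induction r with
    | zero =>
      unfold a
      rw [coeff_zero_eq_eval_zero]
      norm_num [P7]
    | succ r ih =>
      have h := a_grow (2 * r + 5)
      have e : 2 * (r + 1) + 5 + 2 = 2 * r + 5 + 4 := by ring
      have e' : (2 : ℝ) ^ (2 * (r + 1 + 3) + 2) = 4 * 2 ^ (2 * (r + 3) + 2) := by ring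
      have p : (0 : ℝ) < 2 ^ (2 * (r + 3) + 2) := by positivity
      rw [e, e']; linarith
  have h := key r
  unfold a at h
  rw [coeff_zero_eq_eval_zero] at h
  have e1 : (2 * r + 5 + 2 + 0) / 2 = r + 3 := by omega
  have e2 : 2 * r + 5 + 2 = 2 * (r + 3) + 1 := by ring
  rw [e1, e2] at h
  exact h

/-! ### the alternation invariant -/

def Inv (m r : ℕ) (y : ℕ → ℝ) : Prop :=
  y 0 = -1 ∧ (∀ i, i < r → y i < y (i+1)) ∧ (∀ i, i ≤ r → -1 ≤ y i ∧ y i ≤ 0) ∧
    ∀ i, i ≤ r → 2 ^ (m+2) * ((1 + y i) / (1 - y i)) ≤ (-1) ^ i * (P (m+1)).eval (y i)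

theorem mvt (f : ℝ[X]) (K s u v : ℝ) (hK : 0 ≤ K) (hu : -1 ≤ u) (huv : u < v) (hv : v ≤ 0)
    (h1 : K * ((1 + u) / (1 - u)) ≤ - s * f.eval u) (h2 : K * ((1 + v) / (1 - v)) ≤ s * f.eval v) :
    ∃ c, u < c ∧ c < v ∧ 2 * K * ((1 + c) / (1 - c)) ≤ s * (D f).eval c := by
  have hg : ∀ x : ℝ, x ≤ v → HasDerivAt (fun x : ℝ => (1 + x) / (1 - x)) (2 / (1 - x) ^ 2) x := by
    intro x hx
    have hne : (1 - x) ≠ 0 := (show 0 < 1 - x by linarith).ne'
    have := ((hasDerivAt_id' x).const_add 1).fun_div ((hasDerivAt_id' x).const_sub 1) hne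
    exact this.congr_deriv (by field_simp; ring)
  obtain ⟨c, hc, e⟩ := exists_ratio_hasDerivAt_eq_ratio_slope (fun x => f.eval x)
    (fun x => (derivative f).eval x) huv f.continuous.continuousOn (fun x _ => f.hasDerivAt x)
    (fun x : ℝ => (1 + x) / (1 - x)) (fun x => 2 / (1 - x) ^ 2)
    (fun x hx => (hg x hx.2).continuousAt.continuousWithinAt) (fun x hx => hg x hx.2.le)
  refine ⟨c, hc.1, hc.2, ?_⟩
  have hc1 : 0 < 1 - c := by linarith [hc.2]
  have hc2 : 0 ≤ 1 + c := by linarith [hc.1]
  have hu1 : 0 < 1 - u := by linarith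
  have hv1 : 0 < 1 - v := by linarith
  have Eu : 0 ≤ (1 + u) / (1 - u) := div_nonneg (by linarith) hu1.le
  have Ec : 0 ≤ (1 + c) / (1 - c) := div_nonneg hc2 hc1.le
  have Euv : (1 + u) / (1 - u) < (1 + v) / (1 - v) := by
    rw [div_lt_div_iff₀ hu1 hv1]; nlinarith
  have hD : (D f).eval c = (1 - c ^ 2) * (derivative f).eval c := by simp [D]
  have e2 : ((1 + v) / (1 - v) - (1 + u) / (1 - u)) * (D f).eval c
      = (f.eval v - f.eval u) * (2 * ((1 + c) / (1 - c))) := by
    have : (2 * ((1 + c) / (1 - c))) = 2 / (1 - c) ^ 2 * (1 - c ^ 2) := by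
      field_simp; ring
    rw [hD, this]
    linear_combination (1 - c ^ 2) * e
  set Δ := (1 + v) / (1 - v) - (1 + u) / (1 - u) with hΔ
  have hΔp : 0 < Δ := by linarith
  have h3 : K * Δ ≤ s * (f.eval v - f.eval u) := by
    have := mul_nonneg hK Eu
    rw [hΔ]; nlinarith
  refine le_of_mul_le_mul_left ?_ hΔp
  have h4 := mul_le_mul_of_nonneg_right h3 (mul_nonneg (zero_le_two) Ec)
  calc Δ * (2 * K * ((1 + c) / (1 - c))) = K * Δ * (2 * ((1 + c) / (1 - c))) := by ring
    _ ≤ s * (f.eval v - f.eval u) * (2 * ((1 + c) / (1 - c))) := h4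
    _ = Δ * (s * (D f).eval c) := by linear_combination (-s) * e2

theorem Inv.step {m r : ℕ} {y : ℕ → ℝ} (h : Inv m r y) : ∃ y', Inv (m+1) r y' ∧ y' r < 0 := by
  obtain ⟨h0, h1, h2, h3⟩ := h
  have ex : ∀ i, ∃ c, i < r → (y i < c ∧ c < y (i+1) ∧
      2 * 2 ^ (m+2) * ((1 + c) / (1 - c)) ≤ (-1) ^ (i+1) * (D (P (m+1))).eval c) := by
    intro i
    by_cases hi : i < r
    · obtain ⟨c, hc⟩ := mvt (P (m+1)) (2 ^ (m+2)) ((-1) ^ (i+1)) (y i) (y (i+1)) (by positivity)
        (h2 i hi.le).1 (h1 i hi) (h2 (i+1) hi).2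
        (by have := h3 i hi.le; rw [pow_succ (-1 : ℝ)]; linarith) (h3 (i+1) hi)
      exact ⟨c, fun _ => hc⟩
    · exact ⟨0, fun h => absurd h hi⟩
  choose c hc using ex
  refine ⟨fun i => match i with | 0 => -1 | i+1 => c i, ⟨rfl, ?_, ?_, ?_⟩, ?_⟩
  · intro i hi
    rcases i with _ | i
    · show -1 < c 0
      rw [← h0]; exact (hc 0 hi).1
    · exact (hc i (by omega)).2.1.trans (hc (i+1) hi).1
  · intro i hi
    rcases i with _ | i
    · exact ⟨le_rfl, by norm_num⟩
    · exact ⟨(h2 i (by omega)).1.trans (hc i hi).1.le, (hc i hi).2.1.le.trans (h2 (i+1) hi).2⟩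
  · intro i hi
    rcases i with _ | i
    · show 2 ^ (m+1+2) * ((1 + -1) / (1 - -1)) ≤ (-1) ^ 0 * (P (m+1+1)).eval (-1 : ℝ)
      rw [P_succ_eval]; norm_num
    · have := (hc i hi).2.2
      show 2 ^ (m+1+2) * ((1 + c i) / (1 - c i)) ≤ (-1) ^ (i+1) * (D (P (m+1))).eval (c i)
      rw [show m + 1 + 2 = (m + 2) + 1 by ring, pow_succ' (2 : ℝ)]
      exact this
  · rcases r with _ | r
    · norm_num
    · exact (hc r (by omega)).2.1.trans_le (h2 (r+1) le_rfl).2

theorem Inv.extend {m r : ℕ} {y : ℕ → ℝ} (h : Inv m r y) (hr : y r < 0)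
    (hc : (2 : ℝ) ^ (m+2) ≤ (-1) ^ (r+1) * (P (m+1)).eval 0) : ∃ y', Inv m (r+1) y' := by
  obtain ⟨h0, h1, h2, h3⟩ := h
  refine ⟨fun i => if i ≤ r then y i else 0, by simp [h0], ?_, ?_, ?_⟩
  · intro i hi
    by_cases e : i = r
    · subst e; simpa using hr
    · simp only [if_pos (show i ≤ r by omega), if_pos (show i + 1 ≤ r by omega)]
      exact h1 i (by omega)
  · intro i hi
    by_cases e : i ≤ r
    · simp only [if_pos e]; exact h2 i e
    · simp only [if_neg e]; norm_num
  · intro i hi
    by_cases e : i ≤ r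
    · simp only [if_pos e]; exact h3 i e
    · simp only [if_neg e]
      have : i = r + 1 := by omega
      subst this
      simpa using hc

theorem inv_even (r : ℕ) : ∃ y, Inv (2 * (r + 3)) (r + 3) y := by
  induction r with
  | zero =>
    refine ⟨fun i => if i = 0 then -1 else if i = 1 then -9/10 else if i = 2 then -3/5 else 0,
      by simp, ?_, ?_, ?_⟩
    · intro i hi
      have : i < 3 := hi
      interval_cases i <;> norm_num
    · intro i hi
      have : i ≤ 3 := hi
      interval_cases i <;> norm_num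
    · intro i hi
      have : i ≤ 3 := hi
      interval_cases i <;> norm_num [P7]
  | succ r ih =>
    obtain ⟨y, hy⟩ := ih
    obtain ⟨y1, hy1, -⟩ := hy.step
    obtain ⟨y2, hy2, h⟩ := hy1.step
    exact hy2.extend h (centre (r+1))

theorem good_of_inv {m r : ℕ} {y : ℕ → ℝ} (h : Inv m r y) (hm : 2 ≤ m) (hr : r = m / 2)
    (hy : y r < - y (m - (r + 1))) (ε : ℝ) (hε : |ε| ≤ 1) :
    Good (P m + C (ε * 2 ^ m) * P 0) := by
  obtain ⟨h0, h1, h2, h3⟩ := h
  have hp : (0 : ℝ) < 2 ^ m := by positivity
  have hε' := abs_le.1 hε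
  have gt : ∀ i, i ≤ r → 0 < i → -1 < y i := by
    intro i hi hi0
    obtain ⟨j, rfl⟩ : ∃ j, i = j + 1 := ⟨i - 1, by omega⟩
    exact (h2 j (by omega)).1.trans_lt (h1 j hi)
  have T : ∀ i, i ≤ r → 0 < i → 2 ^ m < (-1) ^ i * (derivative (P m)).eval (y i) := by
    intro i hi hi0
    have a := h3 i hi
    have b := gt i hi hi0
    have c := (h2 i hi).2
    rw [P_succ_eval] at a
    have hy1 : 0 < 1 - y i := by linarith
    have hy2 : 0 < 1 + y i := by linarith
    rw [← mul_div_assoc, div_le_iff₀ hy1] at a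
    by_contra hcon
    have hcon := not_lt.1 hcon
    set t := (-1) ^ i * (derivative (P m)).eval (y i) with ht
    have e : (-1) ^ i * ((1 - y i ^ 2) * (derivative (P m)).eval (y i)) * (1 - y i)
        = (1 + y i) * ((1 - y i) ^ 2 * t) := by rw [ht]; ring
    rw [e, mul_comm] at a
    have a' := le_of_mul_le_mul_left a hy2
    have : (1 - y i) ^ 2 * t ≤ (1 - y i) ^ 2 * 2 ^ m := mul_le_mul_of_nonneg_left hcon (sq_nonneg _)
    have : (1 - y i) ^ 2 * 2 ^ m < 4 * 2 ^ m := mul_lt_mul_of_pos_right (by nlinarith) hp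
    have : (2 : ℝ) ^ (m + 2) = 4 * 2 ^ m := by ring
    linarith
  have T0 : ∀ i, i ≤ r → 2 ^ m ≤ (-1) ^ i * (derivative (P m)).eval (y i) := by
    intro i hi
    rcases Nat.eq_zero_or_pos i with e | e
    · subst e; rw [h0, dP_left]; simp
    · exact (T i hi e).le
  let w : ℕ → ℝ := fun i => if i ≤ r then y i else - y (m - i)
  have sg : ∀ i, i ≤ m → ¬ i ≤ r → (-1) ^ i * (derivative (P m)).eval (w i)
      = (-1) ^ (m - i) * (derivative (P m)).eval (y (m - i)) := by
    intro i hi hir
    simp only [w, if_neg hir]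
    rw [dP_neg, ← mul_assoc, ← pow_add]
    have : i + m = (m - i) + 2 * i := by omega
    rw [this, pow_add, pow_mul]; simp
  have W0 : ∀ i, i ≤ m → 2 ^ m ≤ (-1) ^ i * (derivative (P m)).eval (w i) := by
    intro i hi
    by_cases e : i ≤ r
    · simp only [w, if_pos e]; exact T0 i e
    · rw [sg i hi e]; exact T0 _ (by omega)
  have W : ∀ i, 0 < i → i < m → 2 ^ m < (-1) ^ i * (derivative (P m)).eval (w i) := by
    intro i hi0 hi
    by_cases e : i ≤ r
    · simp only [w, if_pos e]; exact T i e hi0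
    · rw [sg i hi.le e]; exact T _ (by omega) (by omega)
  have hR : ∀ x, (derivative (P m + C (ε * 2 ^ m) * P 0)).eval x
      = (derivative (P m)).eval x + ε * 2 ^ m := by
    intro x
    rw [derivative_add, derivative_C_mul, eval_add, eval_mul, eval_C]
    simp [P]
  have pm : ∀ i : ℕ, (-1 : ℝ) ^ i = 1 ∨ (-1 : ℝ) ^ i = -1 := fun i => neg_one_pow_eq_or ℝ i
  have hn : ∀ i, 0 < i → i < m → (derivative (P m + C (ε * 2 ^ m) * P 0)).eval (w i) ≠ 0 := by
    intro i hi0 hi e
    rw [hR] at e
    have := W i hi0 hi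
    rcases pm i with s | s <;> rw [s] at this <;> nlinarith
  have hne : derivative (P m + C (ε * 2 ^ m) * P 0) ≠ 0 := by
    intro e
    exact hn 1 one_pos (by omega) (by rw [e]; simp)
  refine ⟨alt _ m ?_ hne w ?_ ?_ hn, hne⟩
  · have := natDegree_derivative (P m + C (ε * 2 ^ m) * P 0)
    have h5 : (P m + C (ε * 2 ^ m) * P 0).natDegree ≤ m + 1 :=
      natDegree_add_le_of_degree_le (P_deg m)
        ((natDegree_C_mul_le _ _).trans ((P_deg 0).trans (by omega)))
    omega
  · intro i hi
    by_cases e : i + 1 ≤ r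
    · simp only [w, if_pos e, if_pos (show i ≤ r by omega)]; exact h1 i e
    · by_cases e' : i ≤ r
      · have : i = r := by omega
        subst this
        simp only [w, if_neg e, if_pos e']; exact hy
      · simp only [w, if_neg e, if_neg e']
        have := h1 (m - (i + 1)) (by omega)
        rw [show m - (i + 1) + 1 = m - i by omega] at this
        linarith
  · intro i hi
    rw [hR, hR]
    have a := W0 i hi.le
    have b := W0 (i+1) hi
    rw [pow_succ (-1 : ℝ)] at b
    rcases pm i with s | s <;> rw [s] at a b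
    · exact mul_nonpos_of_nonneg_of_nonpos (by nlinarith) (by nlinarith)
    · exact mul_nonpos_of_nonpos_of_nonneg (by nlinarith) (by nlinarith)

theorem good_large (m : ℕ) (hm : 6 ≤ m) (ε : ℝ) (hε : |ε| ≤ 1) :
    Good (P m + C (ε * 2 ^ m) * P 0) := by
  obtain ⟨r, hr | hr⟩ : ∃ r, m = 2 * (r + 3) ∨ m = 2 * (r + 3) + 1 := ⟨m / 2 - 3, by omega⟩
  · obtain ⟨y, hy⟩ := inv_even r
    subst hr
    refine good_of_inv hy (by omega) (by omega) ?_ ε hε
    have a := hy.2.1 (r + 2) (by omega)
    have b := (hy.2.2.1 (r + 3) le_rfl).2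
    rw [show 2 * (r + 3) - (r + 3 + 1) = r + 2 by omega]
    have a' : y (r + 2) < y (r + 3) := a
    linarith
  · obtain ⟨y0, hy0⟩ := inv_even r
    obtain ⟨y, hy, h⟩ := hy0.step
    subst hr
    refine good_of_inv hy (by omega) (by omega) ?_ ε hε
    rw [show 2 * (r + 3) + 1 - (r + 3 + 1) = r + 3 by omega]
    linarith

theorem P0 : P 0 = X := rfl

theorem deg_comb (m j : ℕ) (c : ℝ) : (derivative (P (m + j) + C c * P j)).natDegree ≤ m + j := by
  have := natDegree_derivative (P (m + j) + C c * P j)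
  have h5 : (P (m + j) + C c * P j).natDegree ≤ m + j + 1 :=
    natDegree_add_le_of_degree_le (P_deg _)
      ((natDegree_C_mul_le _ _).trans ((P_deg j).trans (by omega)))
  omega

theorem good_of_list (p : ℝ[X]) (d : ℕ) (hd : (derivative p).natDegree ≤ d) (f : ℝ → ℝ)
    (hf : ∀ x, (derivative p).eval x = f x) (w : List ℝ)
    (hw : ∀ i, i < d → w.getD i 0 < w.getD (i+1) 0)
    (hs : ∀ i, i < d → f (w.getD i 0) * f (w.getD (i+1) 0) ≤ 0)
    (hn : ∀ i, 0 < i → i < d → f (w.getD i 0) ≠ 0) (h2 : 2 ≤ d) : Good p := by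
  have hne : derivative p ≠ 0 := by
    intro e
    exact hn 1 one_pos (by omega) (by rw [← hf, e]; simp)
  refine ⟨alt _ d hd hne (fun i => w.getD i 0) hw ?_ ?_, hne⟩
  · intro i hi; rw [hf, hf]; exact hs i hi
  · intro i h0 hi; rw [hf]; exact hn i h0 hi

theorem small_2_p : Good (P (2 + 1) + C (1 * 2 ^ 2) * P 1) := by
  have hR : ∀ x : ℝ, (derivative (P (2 + 1) + C (1 * 2 ^ 2) * P 1)).eval x = (8) * x ^ 1 + (-24) * x ^ 3 := by
    intro x
    rw [derivative_add, derivative_C_mul, eval_add, eval_mul, eval_C, show 2 + 1 = 3 from rfl, P3, P1]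
    simp only [derivative_add, derivative_sub, derivative_mul, derivative_neg, derivative_ofNat,
      derivative_X_pow, derivative_X, derivative_one, map_natCast, eval_add, eval_sub, eval_mul,
      eval_neg, eval_pow, eval_X, eval_ofNat, eval_one, eval_zero, eval_natCast]
    norm_num
    ring
  exact good_of_list _ 3 (deg_comb 2 1 _) _ hR [-1/1, -23/40, 1/40, 1/1] (by
    intro i hi; interval_cases i <;> norm_num) (by
    intro i hi; interval_cases i <;> norm_num) (by
    intro i h0 hi; interval_cases i <;> norm_num) (by norm_num)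

theorem small_2_m : Good (P (2 + 1) + C (-1 * 2 ^ 2) * P 1) := by
  have hR : ∀ x : ℝ, (derivative (P (2 + 1) + C (-1 * 2 ^ 2) * P 1)).eval x = (24) * x ^ 1 + (-24) * x ^ 3 := by
    intro x
    rw [derivative_add, derivative_C_mul, eval_add, eval_mul, eval_C, show 2 + 1 = 3 from rfl, P3, P1]
    simp only [derivative_add, derivative_sub, derivative_mul, derivative_neg, derivative_ofNat,
      derivative_X_pow, derivative_X, derivative_one, map_natCast, eval_add, eval_sub, eval_mul,
      eval_neg, eval_pow, eval_X, eval_ofNat, eval_one, eval_zero, eval_natCast]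
    norm_num
    ring
  exact good_of_list _ 3 (deg_comb 2 1 _) _ hR [-1/1, -39/40, 1/40, 1/1] (by
    intro i hi; interval_cases i <;> norm_num) (by
    intro i hi; interval_cases i <;> norm_num) (by
    intro i h0 hi; interval_cases i <;> norm_num) (by norm_num)

theorem small_3_p : Good (P (3 + 1) + C (1 * 2 ^ 3) * P 1) := by
  have hR : ∀ x : ℝ, (derivative (P (3 + 1) + C (1 * 2 ^ 3) * P 1)).eval x = (16) * x ^ 0 + (-16) * x ^ 1 + (-120) * x ^ 2 + (120) * x ^ 4 := by
    intro x
    rw [derivative_add, derivative_C_mul, eval_add, eval_mul, eval_C, show 3 + 1 = 4 from rfl, P4, P1]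
    simp only [derivative_add, derivative_sub, derivative_mul, derivative_neg, derivative_ofNat,
      derivative_X_pow, derivative_X, derivative_one, map_natCast, eval_add, eval_sub, eval_mul,
      eval_neg, eval_pow, eval_X, eval_ofNat, eval_one, eval_zero, eval_natCast]
    norm_num
    ring
  exact good_of_list _ 4 (deg_comb 3 1 _) _ hR [-1/1, -31/40, -21/40, 13/40, 1/1] (by
    intro i hi; interval_cases i <;> norm_num) (by
    intro i hi; interval_cases i <;> norm_num) (by
    intro i h0 hi; interval_cases i <;> norm_num) (by norm_num)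

theorem small_3_m : Good (P (3 + 1) + C (-1 * 2 ^ 3) * P 1) := by
  have hR : ∀ x : ℝ, (derivative (P (3 + 1) + C (-1 * 2 ^ 3) * P 1)).eval x = (16) * x ^ 0 + (16) * x ^ 1 + (-120) * x ^ 2 + (120) * x ^ 4 := by
    intro x
    rw [derivative_add, derivative_C_mul, eval_add, eval_mul, eval_C, show 3 + 1 = 4 from rfl, P4, P1]
    simp only [derivative_add, derivative_sub, derivative_mul, derivative_neg, derivative_ofNat,
      derivative_X_pow, derivative_X, derivative_one, map_natCast, eval_add, eval_sub, eval_mul,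
      eval_neg, eval_pow, eval_X, eval_ofNat, eval_one, eval_zero, eval_natCast]
    norm_num
    ring
  exact good_of_list _ 4 (deg_comb 3 1 _) _ hR [-1/1, -39/40, -3/10, 11/20, 1/1] (by
    intro i hi; interval_cases i <;> norm_num) (by
    intro i hi; interval_cases i <;> norm_num) (by
    intro i h0 hi; interval_cases i <;> norm_num) (by norm_num)

theorem small_4_p : Good (P (4 + 1) + C (1 * 2 ^ 4) * P 1) := by
  have hR : ∀ x : ℝ, (derivative (P (4 + 1) + C (1 * 2 ^ 4) * P 1)).eval x = (-304) * x ^ 1 + (960) * x ^ 3 + (-720) * x ^ 5 := by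
    intro x
    rw [derivative_add, derivative_C_mul, eval_add, eval_mul, eval_C, show 4 + 1 = 5 from rfl, P5, P1]
    simp only [derivative_add, derivative_sub, derivative_mul, derivative_neg, derivative_ofNat,
      derivative_X_pow, derivative_X, derivative_one, map_natCast, eval_add, eval_sub, eval_mul,
      eval_neg, eval_pow, eval_X, eval_ofNat, eval_one, eval_zero, eval_natCast]
    norm_num
    ring
  exact good_of_list _ 5 (deg_comb 4 1 _) _ hR [-1/1, -9/10, -7/10, 1/40, 29/40, 1/1] (by
    intro i hi; interval_cases i <;> norm_num) (by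
    intro i hi; interval_cases i <;> norm_num) (by
    intro i h0 hi; interval_cases i <;> norm_num) (by norm_num)

theorem small_4_m : Good (P (4 + 1) + C (-1 * 2 ^ 4) * P 1) := by
  have hR : ∀ x : ℝ, (derivative (P (4 + 1) + C (-1 * 2 ^ 4) * P 1)).eval x = (-240) * x ^ 1 + (960) * x ^ 3 + (-720) * x ^ 5 := by
    intro x
    rw [derivative_add, derivative_C_mul, eval_add, eval_mul, eval_C, show 4 + 1 = 5 from rfl, P5, P1]
    simp only [derivative_add, derivative_sub, derivative_mul, derivative_neg, derivative_ofNat,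
      derivative_X_pow, derivative_X, derivative_one, map_natCast, eval_add, eval_sub, eval_mul,
      eval_neg, eval_pow, eval_X, eval_ofNat, eval_one, eval_zero, eval_natCast]
    norm_num
    ring
  exact good_of_list _ 5 (deg_comb 4 1 _) _ hR [-1/1, -39/40, -23/40, 1/40, 3/5, 1/1] (by
    intro i hi; interval_cases i <;> norm_num) (by
    intro i hi; interval_cases i <;> norm_num) (by
    intro i h0 hi; interval_cases i <;> norm_num) (by norm_num)

theorem small_5_p : Good (P (5 + 0) + C (1 * 2 ^ 5) * P 0) := by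
  have hR : ∀ x : ℝ, (derivative (P (5 + 0) + C (1 * 2 ^ 5) * P 0)).eval x = (32) * x ^ 0 + (-272) * x ^ 1 + (960) * x ^ 3 + (-720) * x ^ 5 := by
    intro x
    rw [derivative_add, derivative_C_mul, eval_add, eval_mul, eval_C, show 5 + 0 = 5 from rfl, P5, P0]
    simp only [derivative_add, derivative_sub, derivative_mul, derivative_neg, derivative_ofNat,
      derivative_X_pow, derivative_X, derivative_one, map_natCast, eval_add, eval_sub, eval_mul,
      eval_neg, eval_pow, eval_X, eval_ofNat, eval_one, eval_zero, eval_natCast]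
    norm_num
    ring
  exact good_of_list _ 5 (deg_comb 5 0 _) _ hR [-1/1, -7/8, -3/4, 1/8, 11/20, 1/1] (by
    intro i hi; interval_cases i <;> norm_num) (by
    intro i hi; interval_cases i <;> norm_num) (by
    intro i h0 hi; interval_cases i <;> norm_num) (by norm_num)

theorem small_5_m : Good (P (5 + 0) + C (-1 * 2 ^ 5) * P 0) := by
  have hR : ∀ x : ℝ, (derivative (P (5 + 0) + C (-1 * 2 ^ 5) * P 0)).eval x = (-32) * x ^ 0 + (-272) * x ^ 1 + (960) * x ^ 3 + (-720) * x ^ 5 := by
    intro x
    rw [derivative_add, derivative_C_mul, eval_add, eval_mul, eval_C, show 5 + 0 = 5 from rfl, P5, P0]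
    simp only [derivative_add, derivative_sub, derivative_mul, derivative_neg, derivative_ofNat,
      derivative_X_pow, derivative_X, derivative_one, map_natCast, eval_add, eval_sub, eval_mul,
      eval_neg, eval_pow, eval_X, eval_ofNat, eval_one, eval_zero, eval_natCast]
    norm_num
    ring
  exact good_of_list _ 5 (deg_comb 5 0 _) _ hR [-1/1, -39/40, -21/40, -1/10, 31/40, 1/1] (by
    intro i hi; interval_cases i <;> norm_num) (by
    intro i hi; interval_cases i <;> norm_num) (by
    intro i h0 hi; interval_cases i <;> norm_num) (by norm_num)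

theorem small_1 (c : ℝ) : Good (P (1 + 0) + C c * P 0) := by
  refine ⟨Splits.of_natDegree_le_one (deg_comb 1 0 c), fun e => ?_⟩
  have h1 := congrArg (eval 0) e
  have h2 := congrArg (eval 1) e
  rw [derivative_add, derivative_C_mul, show 1 + 0 = 1 from rfl, P1, P0] at h1 h2
  simp at h1 h2
  linarith

theorem good_up (m j k : ℕ) (c : ℝ) (h : Good (P (m + j) + C c * P j)) :
    Good (P (m + (j + k)) + C c * P (j + k)) := by
  induction k with
  | zero => exact h
  | succ k ih =>
    have := ih.D
    have e : Euler.D (P (m + (j + k)) + C c * P (j + k))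
        = P (m + (j + (k + 1))) + C c * P (j + (k + 1)) := by
      show _ = Euler.D (P (m + (j + k))) + C c * Euler.D (P (j + k))
      unfold Euler.D
      rw [derivative_add, derivative_C_mul]; ring
    rwa [e] at this

theorem good_all (m j : ℕ) (hm : 1 ≤ m) (hj : m ≤ j + 1) (ε : ℝ) (hε : ε = 1 ∨ ε = -1) :
    Good (P (m + j) + C (ε * 2 ^ m) * P j) := by
  have up : ∀ j0, j0 ≤ j → Good (P (m + j0) + C (ε * 2 ^ m) * P j0) →
      Good (P (m + j) + C (ε * 2 ^ m) * P j) := by
    intro j0 h g
    have := good_up m j0 (j - j0) _ g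
    rwa [show j0 + (j - j0) = j by omega] at this
  by_cases h6 : 6 ≤ m
  · exact up 0 (by omega) (good_large m h6 ε (by rcases hε with e | e <;> simp [e]))
  · have h6 : m < 6 := by omega
    interval_cases m
    · exact up 0 (by omega) (small_1 _)
    · rcases hε with rfl | rfl
      · exact up 1 (by omega) small_2_p
      · exact up 1 (by omega) small_2_m
    · rcases hε with rfl | rfl
      · exact up 1 (by omega) small_3_p
      · exact up 1 (by omega) small_3_m
    · rcases hε with rfl | rfl
      · exact up 1 (by omega) small_4_p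
      · exact up 1 (by omega) small_4_m
    · rcases hε with rfl | rfl
      · exact up 0 (by omega) small_5_p
      · exact up 0 (by omega) small_5_m

end Pool.Agent.H346Z.Euler
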