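import Pool.Agent.H346Z.EulerComb
import Pool.Agent.H346Z.EulerReal

/-!
The descent polynomials of even and of odd permutations are real-rooted.
-/

set_option autoImplicit false

namespace Pool.Agent.H346Z.Euler

open Polynomial Equiv

noncomputable def v0 : ℕ → ℝ[X]
  | 0 => 1 - X
  | a+1 => - P (a+1)

noncomputable def v : ℕ → ℕ → ℝ[X]
  | a, 0 => v0 a
  | a, b+1 => v (a+1) b + 2 * v a b

theorem D_v0 (a : ℕ) : D (v0 a) = v0 (a+1) := by
  rcases a with _ | a
  · simp [v0, D, P]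
  · show D (- P (a+1)) = - D (P (a+1))
    simp [D]

theorem D_v (b : ℕ) : ∀ a, D (v a b) = v (a+1) b := by
  induction b with
  | zero => intro a; simp only [v]; exact D_v0 a
  | succ b ih =>
    intro a
    simp only [v]
    rw [← ih (a+1), ← ih a]
    unfold D
    simp only [derivative_add, derivative_mul, derivative_ofNat]
    ring

theorem key_step (f g : ℝ[X]) (h : -(1 + X) * f = (1 - X) * g) :
    -(1 + X) * (D f + 2 * f) = (1 - X) * D g := by
  have h' := congrArg derivative h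
  simp only [derivative_mul, derivative_neg, derivative_add, derivative_sub, derivative_one,
    derivative_X] at h'
  unfold D
  linear_combination (1 - X ^ 2) * h' + (1 + X) * h

theorem key (r : ℕ) : -(1 + X) * v 0 (r+1) = (1 - X) * v (r+1) 0 := by
  induction r with
  | zero =>
    simp only [v, v0, zero_add, P1]
    ring
  | succ r ih =>
    have := key_step _ _ ih
    rw [D_v, D_v] at this
    rw [← this]
    simp only [v]

noncomputable def U (z : ℂ) (a b : ℕ) : ℂ := aeval ((z + 1) / (z - 1)) (v a b) / 2 ^ (a + b + 1)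

theorem U_zero (z : ℂ) (hz : z ≠ 1) : (1 - z) * U z 0 0 = 1 := by
  have : z - 1 ≠ 0 := sub_ne_zero.2 hz
  simp only [U, v, v0, map_sub, map_one, aeval_X]
  field_simp
  ring

theorem U_rec (z : ℂ) (a b : ℕ) : U z (a+1) b - U z a (b+1) = - U z a b := by
  simp only [U, v, map_add, map_mul, map_ofNat]
  field_simp
  ring

theorem U_end (z : ℂ) (hz : z ≠ 1) (r : ℕ) : U z (r+1) 0 = z * U z 0 (r+1) := by
  have hz' : z - 1 ≠ 0 := sub_ne_zero.2 hz
  have h := congrArg (aeval ((z + 1) / (z - 1))) (key r)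
  simp only [map_mul, map_neg, map_add, map_sub, map_one, aeval_X] at h
  unfold U
  have e1 : -(1 + (z + 1) / (z - 1)) = z * (-2 / (z - 1)) := by field_simp; ring
  have e2 : 1 - (z + 1) / (z - 1) = -2 / (z - 1) := by field_simp; ring
  rw [e1, e2, mul_comm z, mul_assoc] at h
  have h3 := mul_left_cancel₀ (div_ne_zero (by norm_num) hz') h
  rw [← h3, zero_add, add_zero]
  ring

noncomputable def Φs (z : ℂ) (i l : ℕ) : ℂ :=
  if i % 2 = 1 ∧ l % 2 = 1 then 0 else U z ((i + 1) / 2) ((l + 1) / 2)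

noncomputable def χs : ℤˣ →* ℂ := (Int.castRingHom ℂ).toMonoidHom.comp (Units.coeHom ℤ)

theorem χs_apply (s : ℤˣ) : χs s = ((s : ℤ) : ℂ) := rfl

theorem Φs_rec (z : ℂ) (i l : ℕ) :
    Φs z (i+1) l - Φs z i (l+1) = - (χs (-1) ^ i * Φs z i l) := by
  have e : χs (-1) = -1 := by simp [χs_apply]
  rw [e]
  obtain ⟨p, rfl | rfl⟩ := Nat.even_or_odd' i <;> obtain ⟨q, rfl | rfl⟩ := Nat.even_or_odd' l
  · unfold Φs
    rw [if_neg (by omega), if_neg (by omega), if_neg (by omega),
      show (2 * p + 1 + 1) / 2 = p + 1 by omega, show (2 * q + 1) / 2 = q by omega,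
      show (2 * p + 1) / 2 = p by omega, show (2 * q + 1 + 1) / 2 = q + 1 by omega, U_rec]
    simp
  · unfold Φs
    rw [if_pos (by omega), if_neg (by omega), if_neg (by omega),
      show (2 * q + 1 + 1 + 1) / 2 = (2 * q + 1 + 1) / 2 by omega]
    simp
  · unfold Φs
    rw [if_neg (by omega), if_pos (by omega), if_neg (by omega),
      show (2 * p + 1 + 1 + 1) / 2 = (2 * p + 1 + 1) / 2 by omega]
    simp [pow_succ]
  · unfold Φs
    rw [if_neg (by omega), if_neg (by omega), if_pos (by omega),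
      show (2 * p + 1 + 1 + 1) / 2 = (2 * p + 1 + 1) / 2 by omega,
      show (2 * q + 1 + 1 + 1) / 2 = (2 * q + 1 + 1) / 2 by omega]
    simp

theorem total_one (z : ℂ) (hz : z ≠ 1) (n : ℕ) :
    ∑ σ : Perm (Fin (n+1)), z ^ des σ = (1 - z) ^ (n+2) * U z 0 (n+1) := by
  have := G_closed 1 z (U z) (U_zero z hz) (fun i l => by simp [U_rec]) (U_end z hz) n 0
    (by omega)
  simpa [G] using this

theorem total_sign (z : ℂ) (hz : z ≠ 1) (n : ℕ) :
    ∑ σ : Perm (Fin (n+1)), ((Perm.sign σ : ℤ) : ℂ) * z ^ des σ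
      = (1 - z) ^ (n+2) * U z 0 ((n+1+1) / 2) := by
  have := G_closed χs z (Φs z) (by simpa [Φs] using U_zero z hz) (Φs_rec z) (fun r => by
    unfold Φs
    rw [if_neg (by omega), if_neg (by omega), show (r + 1 + 1) / 2 = r / 2 + 1 by omega]
    exact U_end z hz _) n 0 (by omega)
  have e : Φs z 0 (n + 1 - 0) = U z 0 ((n+1+1) / 2) := by
    unfold Φs; rw [if_neg (by omega)]; rfl
  rw [e] at this
  rw [← this]
  simp [G, χs_apply]

theorem main : ∀ n : ℕ, 2 ≤ n → ∀ s : ℤˣ, ∀ z : ℂ,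
      Polynomial.aeval z
        (∑ π ∈ (Finset.univ : Finset (Equiv.Perm (Fin n))).filter
              (fun π => Equiv.Perm.sign π = s),
          (Polynomial.X : Polynomial ℝ) ^
            ((Finset.univ : Finset (Fin n × Fin n)).filter
              (fun p => p.2.val = p.1.val + 1 ∧ π p.2 < π p.1)).card) = 0 →
      z.im = 0 := by
  intro n hn s z h
  by_cases hz : z = 1
  · simp [hz]
  have hz' : z - 1 ≠ 0 := sub_ne_zero.2 hz
  obtain ⟨n, rfl⟩ : ∃ k, n = k + 1 := ⟨n - 1, by omega⟩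
  simp only [des_eq, map_sum, map_pow, aeval_X] at h
  have h2 : ∑ σ : Perm (Fin (n+1)), z ^ des σ
      + ((s : ℤ) : ℂ) * ∑ σ : Perm (Fin (n+1)), ((Perm.sign σ : ℤ) : ℂ) * z ^ des σ = 0 := by
    rw [Finset.mul_sum, ← Finset.sum_add_distrib, ← mul_zero (2 : ℂ), ← h, Finset.sum_filter,
      Finset.mul_sum]
    refine Finset.sum_congr rfl fun σ _ => ?_
    rcases Int.units_eq_one_or s with a | a <;> rcases Int.units_eq_one_or (Perm.sign σ) with b | b <;>
      simp [a, b] <;> ring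
  rw [total_one z hz, total_sign z hz] at h2
  have h3 : U z 0 (n+1) + ((s : ℤ) : ℂ) * U z 0 (n / 2 + 1) = 0 := by
    rw [show (n + 1 + 1) / 2 = n / 2 + 1 by omega] at h2
    have hp : (1 - z) ^ (n+2) ≠ 0 := pow_ne_zero _ (sub_ne_zero.2 (Ne.symm hz))
    apply mul_left_cancel₀ hp
    linear_combination h2
  have h4 : U z (n+1) 0 + ((s : ℤ) : ℂ) * U z (n / 2 + 1) 0 = 0 := by
    rw [U_end z hz, U_end z hz]
    linear_combination z * h3
  obtain ⟨m, j, hj, hmj, h1, h5⟩ : ∃ m j, j = n / 2 ∧ n = m + j ∧ 1 ≤ m ∧ m ≤ j + 1 :=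
    ⟨n - n / 2, n / 2, rfl, by omega, by omega, by omega⟩
  rw [← hj] at h4
  have g := (good_all m j h1 h5 ((s : ℤ) : ℝ) (by
    rcases Int.units_eq_one_or s with a | a <;> simp [a])).D_splits
  have e : D (P (m + j) + C (((s : ℤ) : ℝ) * 2 ^ m) * P j)
      = P (m + j + 1) + C (((s : ℤ) : ℝ) * 2 ^ m) * P (j + 1) := by
    show _ = D (P (m + j)) + C _ * D (P j)
    unfold D
    rw [derivative_add, derivative_C_mul]; ring
  rw [e] at g
  have root : aeval ((z + 1) / (z - 1))
      (P (m + j + 1) + C (((s : ℤ) : ℝ) * 2 ^ m) * P (j + 1)) = 0 := by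
    rw [hmj] at h4
    simp only [U, v, v0, map_neg] at h4
    simp only [map_add, map_mul, aeval_C, map_pow, map_intCast, map_ofNat]
    field_simp at h4
    have hp : (2 : ℂ) ^ (j + 2) ≠ 0 := pow_ne_zero _ two_ne_zero
    apply mul_left_cancel₀ hp
    linear_combination (-1) * h4
  have hr : (z + 1) / (z - 1) ∈ (algebraMap ℝ ℂ).range :=
    g.1.mem_range_of_isRoot g.2 (by rw [IsRoot.def, eval_map_algebraMap]; exact root)
  obtain ⟨t, ht⟩ := hr
  rw [eq_div_iff hz'] at ht
  have a := congrArg Complex.re ht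
  have b := congrArg Complex.im ht
  simp at a b
  by_contra hi
  have : t = 1 := by
    apply mul_right_cancel₀ hi
    linarith
  subst this
  linarith

end Pool.Agent.H346Z.Euler
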